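import Pool.Agent.V5helper73.GC.AREA

set_option autoImplicit false
open Complex Metric Set Filter Topology MeasureTheory

namespace V5helper73.GC

open Pool.Agent.W677.Mar

/-- characters -/
noncomputable def eM (m : ℤ) (t : ℝ) : ℂ := Complex.exp (Complex.I * (m : ℂ) * (t : ℂ))

theorem eM_cont (m : ℤ) : Continuous (eM m) := by
  unfold eM; fun_prop

theorem eM_conj (m : ℤ) (t : ℝ) : (starRingEnd ℂ) (eM m t) = eM (-m) t := by
  unfold eM
  rw [← Complex.exp_conj]
  congr 1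
  simp

theorem eM_mul (m k : ℤ) (t : ℝ) : eM m t * eM k t = eM (m + k) t := by
  unfold eM
  rw [← Complex.exp_add]
  congr 1
  push_cast
  ring

theorem eM_neg (m : ℤ) (t : ℝ) : eM m (-t) = eM (-m) t := by
  unfold eM
  congr 1
  push_cast
  ring

theorem eM_zero (t : ℝ) : eM 0 t = 1 := by simp [eM]

theorem eM_2pi (m : ℤ) : eM m (2 * Real.pi) = 1 := by
  unfold eM
  rw [Complex.exp_eq_one_iff]
  exact ⟨m, by push_cast; ring⟩

theorem eM_at0 (m : ℤ) : eM m 0 = 1 := by simp [eM]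

theorem eM_deriv (m : ℤ) (t : ℝ) : HasDerivAt (eM m) (Complex.I * m * eM m t) t := by
  unfold eM
  have h1 : HasDerivAt (fun t : ℝ => Complex.I * (m : ℂ) * (t : ℂ)) (Complex.I * m) t := by
    simpa using (Complex.ofRealCLM.hasDerivAt (x := t)).const_mul (Complex.I * (m : ℂ))
  exact h1.cexp.congr_deriv (mul_comm _ _)

theorem int_eM (m : ℤ) : ∫ t in (0:ℝ)..(2 * Real.pi), eM m t = if m = 0 then ((2 * Real.pi : ℝ) : ℂ) else 0 := by
  split_ifs with h
  · rw [h]
    simp [eM_zero]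
  · have hm : (Complex.I * (m : ℂ)) ≠ 0 := mul_ne_zero Complex.I_ne_zero (by exact_mod_cast h)
    have h1 : ∫ t in (0:ℝ)..(2 * Real.pi), eM m t = eM m (2 * Real.pi) / (Complex.I * m) - eM m 0 / (Complex.I * m) := by
      apply intervalIntegral.integral_eq_sub_of_hasDerivAt (f := fun t => eM m t / (Complex.I * m))
      · intro t _
        have := (eM_deriv m t).div_const (Complex.I * (m : ℂ))
        rwa [mul_div_cancel_left₀ _ hm] at this
      · exact (eM_cont m).intervalIntegrable _ _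
    rw [h1, eM_2pi, eM_at0, sub_self]

theorem int_geM (m : ℤ) (hm0 : m ≠ 0) :
    ∫ t in (0:ℝ)..(2 * Real.pi), ((Real.pi - t : ℝ) : ℂ) * eM m t = 2 * Real.pi * Complex.I / m := by
  have hmm : (m : ℂ) ≠ 0 := by exact_mod_cast hm0
  have hm : (Complex.I * (m : ℂ)) ≠ 0 := mul_ne_zero Complex.I_ne_zero hmm
  have h1 : ∫ t in (0:ℝ)..(2 * Real.pi), ((Real.pi - t : ℝ) : ℂ) * eM m t =
      (((Real.pi - (2 * Real.pi) : ℝ) : ℂ) * (eM m (2 * Real.pi) / (Complex.I * m)) + eM m (2 * Real.pi) / (Complex.I * m) ^ 2) -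
      (((Real.pi - 0 : ℝ) : ℂ) * (eM m 0 / (Complex.I * m)) + eM m 0 / (Complex.I * m) ^ 2) := by
    apply intervalIntegral.integral_eq_sub_of_hasDerivAt
      (f := fun t : ℝ => ((Real.pi - t : ℝ) : ℂ) * (eM m t / (Complex.I * m)) + eM m t / (Complex.I * m) ^ 2)
    · intro t _
      have h2 : HasDerivAt (fun t : ℝ => ((Real.pi - t : ℝ) : ℂ)) (-1) t := by
        have := ((hasDerivAt_id t).const_sub Real.pi).ofReal_comp
        simpa using this
      have h3 := (h2.mul ((eM_deriv m t).div_const (Complex.I * (m : ℂ)))).add ((eM_deriv m t).div_const ((Complex.I * (m : ℂ)) ^ 2))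
      refine h3.congr_deriv ?_
      field_simp
      ring
    · exact ((Complex.continuous_ofReal.comp (continuous_const.sub continuous_id)).mul (eM_cont m)).intervalIntegrable _ _
  rw [h1, eM_2pi, eM_at0]
  push_cast
  field_simp
  ring_nf
  have hI : Complex.I ^ 3 = -Complex.I := by
    rw [pow_succ, Complex.I_sq]; ring
  rw [hI]
  ring

/-- the quadratic form at the characters -/
noncomputable def PP {n : ℕ} (ζ : Fin n → ℂ) (t : ℝ) : ℝ :=
  ∑ i : Fin n, ∑ l : Fin n, (eM ((i : ℤ) - (l : ℤ)) t * BB (ζ i) (ζ l)).re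

theorem PP_hasSum {n : ℕ} {ζ : Fin n → ℂ} (hζ : ∀ j, ζ j ∈ ball (0:ℂ) 1) (t : ℝ) :
    HasSum (fun k : ℕ => ‖∑ j : Fin n, eM (j : ℤ) t * ζ j ^ k‖ ^ 2 / k) (PP ζ t) := by
  have h1 : ∀ i l : Fin n, HasSum (fun k : ℕ => (eM ((i : ℤ) - (l : ℤ)) t * ((ζ i * (starRingEnd ℂ) (ζ l)) ^ k / k)).re)
      ((eM ((i : ℤ) - (l : ℤ)) t * BB (ζ i) (ζ l)).re) := by
    intro i l
    have hx : ‖ζ i * (starRingEnd ℂ) (ζ l)‖ < 1 := by
      rw [norm_mul, RCLike.norm_conj]
      have h2 := mem_ball_zero_iff.1 (hζ i)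
      have h3 := mem_ball_zero_iff.1 (hζ l)
      nlinarith [norm_nonneg (ζ i), norm_nonneg (ζ l)]
    have h2 := (Complex.hasSum_taylorSeries_neg_log hx).mul_left (eM ((i : ℤ) - (l : ℤ)) t)
    exact Complex.hasSum_re h2
  have h2 : HasSum (fun k : ℕ => ∑ i : Fin n, ∑ l : Fin n, (eM ((i : ℤ) - (l : ℤ)) t * ((ζ i * (starRingEnd ℂ) (ζ l)) ^ k / k)).re) (PP ζ t) := by
    unfold PP
    exact hasSum_sum fun i _ => hasSum_sum fun l _ => h1 i l
  refine h2.congr_fun ?_ |> fun h => h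
  intro k
  have e1 : ‖∑ j : Fin n, eM (j : ℤ) t * ζ j ^ k‖ ^ 2 =
      ((∑ j : Fin n, eM (j : ℤ) t * ζ j ^ k) * (starRingEnd ℂ) (∑ j : Fin n, eM (j : ℤ) t * ζ j ^ k)).re := by
    rw [Complex.mul_conj, Complex.ofReal_re, Complex.normSq_eq_norm_sq]
  rw [e1, map_sum, Finset.sum_mul_sum, Complex.re_sum, Finset.sum_div]
  refine Finset.sum_congr rfl fun i _ => ?_
  rw [Complex.re_sum, Finset.sum_div]
  refine Finset.sum_congr rfl fun l _ => ?_
  rw [map_mul, eM_conj, map_pow, mul_pow]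
  have e2 : eM (i : ℤ) t * ζ i ^ k * (eM (-(l : ℤ)) t * (starRingEnd ℂ) (ζ l) ^ k) =
      eM ((i : ℤ) - (l : ℤ)) t * (ζ i ^ k * (starRingEnd ℂ) (ζ l) ^ k) := by
    rw [sub_eq_add_neg, ← eM_mul]
    ring
  rw [e2]
  have e3 : eM ((i : ℤ) - (l : ℤ)) t * (ζ i ^ k * (starRingEnd ℂ) (ζ l) ^ k / k) =
      (eM ((i : ℤ) - (l : ℤ)) t * (ζ i ^ k * (starRingEnd ℂ) (ζ l) ^ k)) / ((k : ℝ) : ℂ) := by
    push_cast
    ring
  rw [e3, Complex.div_ofReal_re]

theorem PP_cont {n : ℕ} (ζ : Fin n → ℂ) : Continuous (PP ζ) := by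
  unfold PP
  refine continuous_finsetSum _ fun i _ => continuous_finsetSum _ fun l _ => ?_
  exact Complex.continuous_re.comp ((eM_cont _).mul continuous_const)

theorem PP_nonneg {n : ℕ} {ζ : Fin n → ℂ} (hζ : ∀ j, ζ j ∈ ball (0:ℂ) 1) (t : ℝ) : 0 ≤ PP ζ t :=
  (PP_hasSum hζ t).nonneg fun k => by positivity

theorem int_re {g : ℝ → ℂ} (hg : Continuous g) (b : ℂ) :
    ∫ t in (0:ℝ)..(2 * Real.pi), (g t * b).re = ((∫ t in (0:ℝ)..(2 * Real.pi), g t) * b).re := by
  rw [← intervalIntegral.integral_mul_const]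
  exact (Complex.reCLM.intervalIntegral_comp_comm (μ := volume) (a := 0) (b := 2 * Real.pi) (f := fun t => g t * b)
    ((hg.mul continuous_const).intervalIntegrable _ _))

/-- the mean of the quadratic form -/
theorem PP_mean {n : ℕ} {ζ : Fin n → ℂ} (hζ : ∀ j, ζ j ∈ ball (0:ℂ) 1) :
    ∫ t in (0:ℝ)..(2 * Real.pi), PP ζ t = 2 * Real.pi * ∑ j, -Real.log (1 - ‖ζ j‖ ^ 2) := by
  have hcT : ∀ i l : Fin n, Continuous fun t : ℝ => (eM ((i : ℤ) - (l : ℤ)) t * BB (ζ i) (ζ l)).re := fun i l =>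
    Complex.continuous_re.comp ((eM_cont _).mul continuous_const)
  unfold PP
  rw [intervalIntegral.integral_finsetSum (fun i _ => (continuous_finsetSum _ fun l _ => hcT i l).intervalIntegrable _ _), Finset.mul_sum]
  refine Finset.sum_congr rfl fun i _ => ?_
  rw [intervalIntegral.integral_finsetSum (fun l _ => (hcT i l).intervalIntegrable _ _)]
  rw [Finset.sum_eq_single i]
  · rw [int_re (eM_cont _), int_eM]
    simp only [sub_self, if_true]
    rw [Complex.re_ofReal_mul]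
    congr 1
    unfold BB
    rw [Complex.mul_conj, Complex.normSq_eq_norm_sq, Complex.neg_re, Complex.log_re]
    congr 2
    have h2 := mem_ball_zero_iff.1 (hζ i)
    have h3 : 0 < 1 - ‖ζ i‖ ^ 2 := by nlinarith [norm_nonneg (ζ i)]
    rw [← Complex.ofReal_one, ← Complex.ofReal_sub, Complex.norm_real, Real.norm_of_nonneg h3.le]
  · intro l _ hl
    rw [int_re (eM_cont _), int_eM, if_neg]
    · simp
    · intro h
      apply hl
      apply Fin.ext
      have : (i : ℤ) = (l : ℤ) := by linarith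
      exact_mod_cast this.symm
  · intro h
    exact absurd (Finset.mem_univ i) h

theorem BB_conj {z w : ℂ} (hz : z ∈ ball (0:ℂ) 1) (hw : w ∈ ball (0:ℂ) 1) : BB w z = (starRingEnd ℂ) (BB z w) := by
  unfold BB
  have hx : ‖z * (starRingEnd ℂ) w‖ < 1 := by
    rw [norm_mul, RCLike.norm_conj]
    have h2 := mem_ball_zero_iff.1 hz
    have h3 := mem_ball_zero_iff.1 hw
    nlinarith [norm_nonneg z, norm_nonneg w]
  have h1 : (1 - z * (starRingEnd ℂ) w).arg ≠ Real.pi := by
    have := Complex.mem_slitPlane_of_norm_lt_one (z := -(z * (starRingEnd ℂ) w)) (by rwa [norm_neg])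
    rw [← sub_eq_add_neg] at this
    exact (Complex.mem_slitPlane_iff_arg.1 this).1
  rw [map_neg, ← Complex.log_conj _ h1]
  congr 2
  simp [mul_comm]

/-- the odd mean -/
theorem PP_odd {n : ℕ} {ζ : Fin n → ℂ} (hζ : ∀ j, ζ j ∈ ball (0:ℂ) 1) :
    ∫ t in (0:ℝ)..(2 * Real.pi), (Real.pi - t) * PP ζ t = -(2 * Real.pi ^ 2 * yy ζ) := by
  have hpi := Real.pi_pos
  have hcg : Continuous fun t : ℝ => ((Real.pi - t : ℝ) : ℂ) := Complex.continuous_ofReal.comp (continuous_const.sub continuous_id)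
  have hcT : ∀ i l : Fin n, Continuous fun t : ℝ => (((Real.pi - t : ℝ) : ℂ) * eM ((i : ℤ) - (l : ℤ)) t * BB (ζ i) (ζ l)).re := fun i l =>
    Complex.continuous_re.comp ((hcg.mul (eM_cont _)).mul continuous_const)
  set F : Fin n → Fin n → ℝ := fun i l => (BB (ζ i) (ζ l)).im / ((i : ℝ) - (l : ℝ)) with hF
  have e1 : ∀ t : ℝ, (Real.pi - t) * PP ζ t = ∑ i : Fin n, ∑ l : Fin n, (((Real.pi - t : ℝ) : ℂ) * eM ((i : ℤ) - (l : ℤ)) t * BB (ζ i) (ζ l)).re := by
    intro t
    unfold PP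
    rw [Finset.mul_sum]
    refine Finset.sum_congr rfl fun i _ => ?_
    rw [Finset.mul_sum]
    refine Finset.sum_congr rfl fun l _ => ?_
    rw [mul_assoc, Complex.re_ofReal_mul]
  simp only [e1]
  rw [intervalIntegral.integral_finsetSum (fun i _ => (continuous_finsetSum _ fun l _ => hcT i l).intervalIntegrable _ _)]
  have e2 : ∀ i : Fin n, ∫ t in (0:ℝ)..(2 * Real.pi), ∑ l : Fin n, (((Real.pi - t : ℝ) : ℂ) * eM ((i : ℤ) - (l : ℤ)) t * BB (ζ i) (ζ l)).re =
      ∑ l : Fin n, -(2 * Real.pi * F i l) := by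
    intro i
    rw [intervalIntegral.integral_finsetSum (fun l _ => (hcT i l).intervalIntegrable _ _)]
    refine Finset.sum_congr rfl fun l _ => ?_
    rw [int_re (g := fun t : ℝ => ((Real.pi - t : ℝ) : ℂ) * eM ((i : ℤ) - (l : ℤ)) t) (hcg.mul (eM_cont _))]
    by_cases h : (i : ℤ) - (l : ℤ) = 0
    · have h2 : (i : ℝ) - (l : ℝ) = 0 := by exact_mod_cast h
      simp only [hF, h2, div_zero, mul_zero, neg_zero]
      rw [h]
      simp only [eM_zero, mul_one]
      have h3 : ∫ t in (0:ℝ)..(2 * Real.pi), ((Real.pi - t : ℝ) : ℂ) = 0 := by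
        rw [intervalIntegral.integral_ofReal]
        have : ∫ t in (0:ℝ)..(2 * Real.pi), (Real.pi - t) = 0 := by
          rw [intervalIntegral.integral_sub (by simp) (by simp)]
          simp
          ring
        rw [this]
        simp
      rw [h3]
      simp
    · rw [int_geM _ h]
      simp only [hF]
      have h4 : (2 * (Real.pi : ℂ) * Complex.I / (((i : ℤ) - (l : ℤ) : ℤ) : ℂ)) * BB (ζ i) (ζ l) =
          ((2 * Real.pi / ((i : ℝ) - (l : ℝ)) : ℝ) : ℂ) * (Complex.I * BB (ζ i) (ζ l)) := by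
        push_cast
        ring
      rw [h4, Complex.re_ofReal_mul, Complex.I_mul_re]
      ring
  simp only [e2]
  have hsym : ∀ i l : Fin n, F i l = F l i := by
    intro i l
    simp only [hF]
    rw [BB_conj (hζ l) (hζ i), Complex.conj_im, ← neg_sub (l : ℝ) (i : ℝ), div_neg, neg_div, neg_neg]
  have hsplit : ∀ i l : Fin n, F i l = (if l < i then F i l else 0) + (if i < l then F i l else 0) := by
    intro i l
    rcases lt_trichotomy l i with h | h | h
    · rw [if_pos h, if_neg (not_lt.2 h.le), add_zero]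
    · rw [h]; simp [hF]
    · rw [if_neg (not_lt.2 h.le), if_pos h, zero_add]
  have e3 : ∑ i : Fin n, ∑ l : Fin n, F i l = 2 * ∑ i : Fin n, ∑ l : Fin n, (if l < i then F i l else 0) := by
    have h5 : ∑ i : Fin n, ∑ l : Fin n, (if i < l then F i l else 0) = ∑ i : Fin n, ∑ l : Fin n, (if l < i then F i l else 0) := by
      rw [Finset.sum_comm]
      refine Finset.sum_congr rfl fun i _ => Finset.sum_congr rfl fun l _ => ?_
      rw [hsym l i]
    rw [Finset.sum_congr rfl fun i _ => Finset.sum_congr rfl fun l _ => hsplit i l]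
    simp only [Finset.sum_add_distrib]
    rw [h5]
    ring
  simp only [Finset.sum_neg_distrib, ← Finset.mul_sum]
  rw [e3]
  unfold yy
  field_simp
  ring

/-- orthogonality -/
theorem int_prod {n : ℕ} (a b : Fin n → ℂ) :
    ∫ t in (0:ℝ)..(2 * Real.pi), (∑ j : Fin n, eM (j : ℤ) t * a j) * (∑ l : Fin n, eM (-(l : ℤ)) t * b l) =
      ((2 * Real.pi : ℝ) : ℂ) * ∑ j, a j * b j := by
  have e1 : ∀ t : ℝ, (∑ j : Fin n, eM (j : ℤ) t * a j) * (∑ l : Fin n, eM (-(l : ℤ)) t * b l) =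
      ∑ j : Fin n, ∑ l : Fin n, eM ((j : ℤ) - (l : ℤ)) t * (a j * b l) := by
    intro t
    rw [Finset.sum_mul_sum]
    refine Finset.sum_congr rfl fun j _ => Finset.sum_congr rfl fun l _ => ?_
    rw [sub_eq_add_neg, ← eM_mul]
    ring
  have hc : ∀ j l : Fin n, Continuous fun t : ℝ => eM ((j : ℤ) - (l : ℤ)) t * (a j * b l) := fun j l => (eM_cont _).mul continuous_const
  simp only [e1]
  rw [intervalIntegral.integral_finsetSum (fun i _ => (continuous_finsetSum _ fun l _ => hc i l).intervalIntegrable _ _), Finset.mul_sum]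
  refine Finset.sum_congr rfl fun j _ => ?_
  rw [intervalIntegral.integral_finsetSum (fun l _ => (hc j l).intervalIntegrable _ _), Finset.sum_eq_single j]
  · rw [intervalIntegral.integral_mul_const, int_eM]
    simp
  · intro l _ hl
    rw [intervalIntegral.integral_mul_const, int_eM, if_neg, zero_mul]
    intro h
    apply hl
    apply Fin.ext
    have : (j : ℤ) = (l : ℤ) := by linarith
    exact_mod_cast this.symm
  · intro h
    exact absurd (Finset.mem_univ j) h

/-- weighted arithmetic-geometric mean -/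
theorem amgm {p q x lam g : ℝ} (hp : 0 ≤ p) (hq : 0 ≤ q) (hxx : x ^ 2 ≤ p * q) (hl : 0 < lam) (hg : |g| ≤ 1) :
    x ≤ ((lam + 1 / lam) * (p + q) + g * (lam - 1 / lam) * (p - q)) / 4 := by
  have h1 : x ≤ (lam * p + q / lam) / 2 := by
    have h2 : 0 ≤ (lam * p + q / lam) / 2 := by positivity
    refine abs_le_of_sq_le_sq' ?_ h2 |>.2
    have h3 : ((lam * p + q / lam) / 2) ^ 2 - p * q = ((lam * p - q / lam) / 2) ^ 2 := by
      field_simp
      ring
    nlinarith [sq_nonneg ((lam * p - q / lam) / 2)]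
  have h4 : x ≤ (p / lam + lam * q) / 2 := by
    have h2 : 0 ≤ (p / lam + lam * q) / 2 := by positivity
    refine abs_le_of_sq_le_sq' ?_ h2 |>.2
    have h3 : ((p / lam + lam * q) / 2) ^ 2 - p * q = ((p / lam - lam * q) / 2) ^ 2 := by
      field_simp
      ring
    nlinarith [sq_nonneg ((p / lam - lam * q) / 2)]
  obtain ⟨g1, g2⟩ := abs_le.1 hg
  have h5 : ((lam + 1 / lam) * (p + q) + g * (lam - 1 / lam) * (p - q)) / 4 =
      (1 + g) / 2 * ((lam * p + q / lam) / 2) + (1 - g) / 2 * ((p / lam + lam * q) / 2) := by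
    field_simp
    ring
  rw [h5]
  have h6 : (1 + g) / 2 * x ≤ (1 + g) / 2 * ((lam * p + q / lam) / 2) := mul_le_mul_of_nonneg_left h1 (by linarith)
  have h7 : (1 - g) / 2 * x ≤ (1 - g) / 2 * ((p / lam + lam * q) / 2) := mul_le_mul_of_nonneg_left h4 (by linarith)
  nlinarith

theorem t_CHAR : S_CHAR := by
  intro Y H S n ζ hζ hζ0 lam hlam
  have hpi := Real.pi_pos
  have h2pi : (0:ℝ) < 2 * Real.pi := by positivity
  obtain ⟨f, hf, hfe, hf0⟩ := exists_log S
  have h00 : (0 : ℂ) ∈ ball (0 : ℂ) 1 := mem_ball_self one_pos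
  set A : Fin n → ℂ → ℂ := fun j z => f (ζ j, z) with hA
  have hAd : ∀ j, DifferentiableOn ℂ (A j) (ball 0 1) := by
    intro j
    have hAc : ContinuousOn (fun z => f (ζ j, z)) (ball 0 1) := by
      apply hf.comp (by fun_prop)
      intro w hw
      exact ⟨hζ j, hw⟩
    exact log_diff isOpen_ball hAc (NN_diff S.G.diff (hζ j)) (fun z hz => hfe _ (hζ j) z hz)
  have hdiag : ∀ j, H (ζ j) = A j (ζ j) := by
    intro j
    apply exp_unique (convex_ball (0 : ℂ) 1).isPreconnected (f := H) (g := fun w => f (w, w))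
      S.dH.continuousOn _ _ h00 _ (hζ j)
    · apply hf.comp (by fun_prop)
      intro w hw
      exact ⟨hw, hw⟩
    · intro w hw
      rw [hfe w hw w hw, S.eq w hw]
      unfold NN
      rw [dslope_same]
    · show H 0 = f (0, 0)
      rw [S.H0, hf0 0 h00]
  set c : Fin n → ℕ → ℂ := fun j k => (k.factorial : ℂ)⁻¹ * iteratedDeriv k (A j) 0 with hc
  have hcs : ∀ j, ∀ z ∈ ball (0:ℂ) 1, HasSum (fun k : ℕ => c j k * z ^ k) (A j z) := by
    intro j z hz
    have h1 := Complex.hasSum_taylorSeries_on_ball (hAd j) hz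
    refine h1.congr_fun ?_ |> fun h => h
    intro k
    simp only [hc, smul_eq_mul, sub_zero]
    ring
  have hc0 : ∀ j, c j 0 = 0 := by
    intro j
    simp [hc, hA, hf0 _ (hζ j)]
  -- the bound for the partial sums
  set τ : ℝ := ∑ j, -Real.log (1 - ‖ζ j‖ ^ 2) with hτ
  have hpart : ∀ N : ℕ, ‖∑ k ∈ Finset.range N, ∑ j, c j k * ζ j ^ k‖ ≤ (lam * (τ - yy ζ) + (τ + yy ζ) / lam) / 2 := by
    intro N
    set U : ℝ → ℂ := fun t => ∑ k ∈ Finset.range N, (∑ j : Fin n, eM (j : ℤ) t * c j k) * (∑ l : Fin n, eM (-(l : ℤ)) t * ζ l ^ k) with hU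
    have hUk : ∀ k : ℕ, Continuous fun t : ℝ => (∑ j : Fin n, eM (j : ℤ) t * c j k) * (∑ l : Fin n, eM (-(l : ℤ)) t * ζ l ^ k) := fun k =>
      (continuous_finsetSum _ fun j _ => (eM_cont _).mul continuous_const).mul (continuous_finsetSum _ fun j _ => (eM_cont _).mul continuous_const)
    have hUc : Continuous U := continuous_finsetSum _ fun k _ => hUk k
    have hUi : ∫ t in (0:ℝ)..(2 * Real.pi), U t = ((2 * Real.pi : ℝ) : ℂ) * ∑ k ∈ Finset.range N, ∑ j, c j k * ζ j ^ k := by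
      simp only [hU]
      rw [intervalIntegral.integral_finsetSum (fun k _ => (hUk k).intervalIntegrable _ _), Finset.mul_sum]
      exact Finset.sum_congr rfl fun k _ => int_prod _ _
    have hUb : ∀ t : ℝ, ‖U t‖ ^ 2 ≤ PP ζ t * PP ζ (-t) := by
      intro t
      have h1 := t_AREA Y H S n ζ hζ hζ0 A hAd (fun j z hz => hfe _ (hζ j) z hz) c hcs (fun j => eM (j : ℤ) t) N
      rw [(PP_hasSum hζ t).tsum_eq] at h1
      have h2 : ∑ k ∈ Finset.range N, ‖∑ l : Fin n, eM (-(l : ℤ)) t * ζ l ^ k‖ ^ 2 / k ≤ PP ζ (-t) := by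
        have h3 := PP_hasSum hζ (-t)
        simp only [eM_neg] at h3
        exact sum_le_hasSum _ (fun k _ => by positivity) h3
      have h3 : ‖U t‖ ≤ ∑ k ∈ Finset.range N, (Real.sqrt k * ‖∑ j : Fin n, eM (j : ℤ) t * c j k‖) * (‖∑ l : Fin n, eM (-(l : ℤ)) t * ζ l ^ k‖ / Real.sqrt k) := by
        refine (norm_sum_le _ _).trans (Finset.sum_le_sum fun k _ => ?_)
        rw [norm_mul]
        rcases Nat.eq_zero_or_pos k with h | h
        · rw [h]
          simp [hc0]
        · have hk : Real.sqrt k ≠ 0 := by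
            have : (0 : ℝ) < k := by exact_mod_cast h
            positivity
          apply le_of_eq
          field_simp
      have h4 := Finset.sum_mul_sq_le_sq_mul_sq (Finset.range N) (fun k : ℕ => Real.sqrt k * ‖∑ j : Fin n, eM (j : ℤ) t * c j k‖)
        (fun k : ℕ => ‖∑ l : Fin n, eM (-(l : ℤ)) t * ζ l ^ k‖ / Real.sqrt k)
      have h5 : ∑ k ∈ Finset.range N, (Real.sqrt (k : ℝ) * ‖∑ j : Fin n, eM (j : ℤ) t * c j k‖) ^ 2 ≤ PP ζ t := by
        refine le_trans (le_of_eq (Finset.sum_congr rfl fun k _ => ?_)) h1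
        rw [mul_pow, Real.sq_sqrt (Nat.cast_nonneg k)]
      have h6 : ∑ k ∈ Finset.range N, (‖∑ l : Fin n, eM (-(l : ℤ)) t * ζ l ^ k‖ / Real.sqrt (k : ℝ)) ^ 2 ≤ PP ζ (-t) := by
        refine le_trans (le_of_eq (Finset.sum_congr rfl fun k _ => ?_)) h2
        rw [div_pow, Real.sq_sqrt (Nat.cast_nonneg k)]
      calc ‖U t‖ ^ 2 ≤ (∑ k ∈ Finset.range N, (Real.sqrt k * ‖∑ j : Fin n, eM (j : ℤ) t * c j k‖) * (‖∑ l : Fin n, eM (-(l : ℤ)) t * ζ l ^ k‖ / Real.sqrt k)) ^ 2 := by gcongr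
        _ ≤ _ := h4.trans (mul_le_mul h5 h6 (Finset.sum_nonneg fun k _ => sq_nonneg _) (PP_nonneg hζ t))
    -- integrate
    set Rt : ℝ → ℝ := fun t => ((lam + 1 / lam) * (PP ζ t + PP ζ (-t)) + ((Real.pi - t) / Real.pi) * (lam - 1 / lam) * (PP ζ t - PP ζ (-t))) / 4 with hRt
    have hPc := PP_cont ζ
    have hPc' : Continuous fun t : ℝ => PP ζ (-t) := hPc.comp continuous_neg
    have hRc : Continuous Rt := by
      simp only [hRt]
      fun_prop
    have hpt : ∀ t ∈ Icc (0:ℝ) (2 * Real.pi), ‖U t‖ ≤ Rt t := by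
      intro t ht
      apply amgm (PP_nonneg hζ t) (PP_nonneg hζ (-t)) (hUb t) hlam
      rw [abs_le]
      constructor
      · rw [le_div_iff₀ hpi]; linarith [ht.2]
      · rw [div_le_iff₀ hpi]; linarith [ht.1]
    have hI1 : ‖∫ t in (0:ℝ)..(2 * Real.pi), U t‖ ≤ ∫ t in (0:ℝ)..(2 * Real.pi), Rt t := by
      refine (intervalIntegral.norm_integral_le_integral_norm h2pi.le).trans ?_
      exact intervalIntegral.integral_mono_on h2pi.le (hUc.norm.intervalIntegrable _ _) (hRc.intervalIntegrable _ _) hpt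
    have hrefl : ∀ F : ℝ → ℝ, ∫ t in (0:ℝ)..(2 * Real.pi), F (2 * Real.pi - t) = ∫ t in (0:ℝ)..(2 * Real.pi), F t := by
      intro F
      rw [intervalIntegral.integral_comp_sub_left]
      simp
    have hper : ∀ t : ℝ, PP ζ (2 * Real.pi - t) = PP ζ (-t) := by
      intro t
      unfold PP
      refine Finset.sum_congr rfl fun i _ => Finset.sum_congr rfl fun l _ => ?_
      have : eM ((i : ℤ) - (l : ℤ)) (2 * Real.pi - t) = eM ((i : ℤ) - (l : ℤ)) (-t) := by
        have h1 : eM ((i : ℤ) - (l : ℤ)) (2 * Real.pi - t) = eM ((i : ℤ) - (l : ℤ)) (2 * Real.pi) * eM ((i : ℤ) - (l : ℤ)) (-t) := by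
          unfold eM
          rw [← Complex.exp_add]
          congr 1
          push_cast
          ring
        rw [h1, eM_2pi, one_mul]
      rw [this]
    have hm1 : ∫ t in (0:ℝ)..(2 * Real.pi), PP ζ (-t) = 2 * Real.pi * τ := by
      rw [← PP_mean hζ, ← hrefl (PP ζ)]
      simp only [hper]
    have hm2 : ∫ t in (0:ℝ)..(2 * Real.pi), (Real.pi - t) * PP ζ (-t) = 2 * Real.pi ^ 2 * yy ζ := by
      have h1 : ∀ t : ℝ, (Real.pi - t) * PP ζ (-t) = -((Real.pi - (2 * Real.pi - t)) * PP ζ (2 * Real.pi - t)) := by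
        intro t
        rw [hper]
        ring
      simp only [h1]
      rw [intervalIntegral.integral_neg, hrefl (fun t => (Real.pi - t) * PP ζ t), PP_odd hζ]
      ring
    have hI2 : ∫ t in (0:ℝ)..(2 * Real.pi), Rt t = 2 * Real.pi * ((lam * (τ - yy ζ) + (τ + yy ζ) / lam) / 2) := by
      have e1 : ∀ t, Rt t = (lam + 1 / lam) / 4 * PP ζ t + (lam + 1 / lam) / 4 * PP ζ (-t) +
          ((lam - 1 / lam) / (4 * Real.pi) * ((Real.pi - t) * PP ζ t) - (lam - 1 / lam) / (4 * Real.pi) * ((Real.pi - t) * PP ζ (-t))) := by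
        intro t
        simp only [hRt]
        field_simp
      simp only [e1]
      have c1 : Continuous fun t : ℝ => (lam + 1 / lam) / 4 * PP ζ t := by fun_prop
      have c2 : Continuous fun t : ℝ => (lam + 1 / lam) / 4 * PP ζ (-t) := by fun_prop
      have c3 : Continuous fun t : ℝ => (lam - 1 / lam) / (4 * Real.pi) * ((Real.pi - t) * PP ζ t) := by fun_prop
      have c4 : Continuous fun t : ℝ => (lam - 1 / lam) / (4 * Real.pi) * ((Real.pi - t) * PP ζ (-t)) := by fun_prop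
      have s1 := intervalIntegral.integral_add (μ := volume) (a := 0) (b := 2 * Real.pi)
        (f := fun t : ℝ => (lam + 1 / lam) / 4 * PP ζ t + (lam + 1 / lam) / 4 * PP ζ (-t))
        (g := fun t : ℝ => (lam - 1 / lam) / (4 * Real.pi) * ((Real.pi - t) * PP ζ t) - (lam - 1 / lam) / (4 * Real.pi) * ((Real.pi - t) * PP ζ (-t)))
        ((c1.add c2).intervalIntegrable _ _) ((c3.sub c4).intervalIntegrable _ _)
      rw [s1, intervalIntegral.integral_add (c1.intervalIntegrable _ _) (c2.intervalIntegrable _ _),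
        intervalIntegral.integral_sub (c3.intervalIntegrable _ _) (c4.intervalIntegrable _ _)]
      simp only [intervalIntegral.integral_const_mul]
      rw [PP_mean hζ, hm1, PP_odd hζ, hm2, ← hτ]
      field_simp
      ring
    rw [hUi, hI2, norm_mul, Complex.norm_real, Real.norm_of_nonneg h2pi.le] at hI1
    exact le_of_mul_le_mul_left hI1 h2pi
  have hlim : Tendsto (fun N : ℕ => ∑ k ∈ Finset.range N, ∑ j, c j k * ζ j ^ k) atTop (𝓝 (∑ j, H (ζ j))) := by
    have h1 : HasSum (fun k : ℕ => ∑ j, c j k * ζ j ^ k) (∑ j, H (ζ j)) := by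
      refine hasSum_sum fun j _ => ?_
      rw [hdiag j]
      exact hcs j _ (hζ j)
    exact h1.tendsto_sum_nat
  exact le_of_tendsto hlim.norm (Eventually.of_forall hpart)

end V5helper73.GC
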