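import Mathlib

/-! # Project GC (strong Marshall bound for the whole class Sigma, `a < 1/2`): elementary jobs

Background: for `ψ ∈ Σ`, `H = log ψ'` in disc coordinates, the Grunsky inequality tested with characters `e^{ijt}` at `n`
points of a circle of radius `s` gives `|∑ H(ζ_j)|² ≤ (n L)² - y²`, `L = -log (1 - s²)`,
`y = (2/π) ∑_{l<j} Im(-log(1 - ζ_j conj ζ_l)) / (j - l) ≥ n (log n - C)`. So at most `exp (C + √(L² - x²))` separated points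
have `Re (e^{-iφ} H) ≥ x`: the tail bound `exp (-(L - √(L² - x²)))`, hence all `a < 1/2`. -/

set_option autoImplicit false
open MeasureTheory Set

namespace V5helper73.GC

/-- the imaginary part of `-log (1 - ρ e^{iδ})` -/
noncomputable def bk (ρ δ : ℝ) : ℝ := Real.arctan (ρ * Real.sin δ / (1 - ρ * Real.cos δ))

/-- **HAR.** (120 lines)  The lower bound for `y`.
Proof. If `n = 0` both sides are `0`. For `l < j < n`, `δ = θ_j - θ_l` satisfies `(j-l) d ≤ δ ≤ 1`. Put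
`X = ρ sin δ / (1 - ρ cos δ) > 0`; `arctan X ≥ π/2 - 1/X` and
`1/X = (1-ρ)/(ρ sin δ) + (1 - cos δ)/sin δ`, `(1 - cos δ)/sin δ = tan (δ/2) ≤ δ` for `0 < δ ≤ 1`, `sin δ ≥ δ/2` (even
`≥ 0.84 δ`), so `bk ρ δ ≥ π/2 - 2(1-ρ)/(ρ δ) - δ ≥ π/2 - 8/(j-l) - δ` (since `ρ ≥ 1/2`, `δ ≥ (j-l)(1-ρ)/2`).
Now `∑_{l<j} 1/(j-l) = ∑_{j<n} H_j ≥ n log n - n` (`H_j = ∑_{r=1}^j 1/r ≥ log (j+1)`, and `∑_{j<n} log (j+1) = log n! ≥ n log n - n`);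
`∑_{l<j} 1/(j-l)² ≤ 2 n`; and `∑_{l<j} (θ_j - θ_l)/(j-l) ≤ n`:
for `r = j - l` one has `∑_l (θ_{l+r} - θ_l) = ∑_{i<r} ∑_l (θ_{l+i+1} - θ_{l+i}) ≤ r (θ_{n-1} - θ_0) ≤ r`.
Total `≥ n log n - n - (2/π)(16 n + n) ≥ n (log n - 20)`. -/
def S_HAR : Prop := ∀ ρ d : ℝ, 1 / 2 ≤ ρ → ρ < 1 → (1 - ρ) / 2 ≤ d → ∀ (n : ℕ) (θ : ℕ → ℝ),
  (∀ i : ℕ, i + 1 < n → θ i + d ≤ θ (i + 1)) → θ (n - 1) - θ 0 ≤ 1 →
  (n : ℝ) * (Real.log n - 20) ≤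
    (2 / Real.pi) * ∑ j ∈ Finset.range n, ∑ l ∈ Finset.range j, bk ρ (θ j - θ l) / ((j : ℝ) - (l : ℝ))

/-- **GRID.** (120 lines)  From separated points to measure.
Proof. Let `N = ⌊1/d⌋₊ ≥ 4`, `w = N d ∈ (3/4, 1]`. `(0, 2π]` is covered by the nine intervals `[m w, (m+1) w)`, `m = 0..8`
(`9 · 3/4 > 2π`). For `α = m w`: the measure of `E ∩ [α, α + N d)` is
`∑_{j<N} ∫_{[0,d)} 1_E (α + u + j d) du = ∫_{[0,d)} #{j < N : α + u + j d ∈ E} du ≤ d Nst`, because for fixed `u` the points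
`α + u + j d` in `E`, enumerated in increasing order (`Finset.orderEmbOfFin` of the finset of the `j`), satisfy the
hypotheses (gaps `≥ d`, spread `≤ (N-1) d ≤ 1`; put anything for `i ≥ n`). -/
def S_GRID : Prop := ∀ E : Set ℝ, MeasurableSet E → ∀ d Nst : ℝ, 0 < d → d ≤ 1 / 4 → 0 ≤ Nst →
  (∀ (n : ℕ) (θ : ℕ → ℝ), (∀ i : ℕ, i < n → θ i ∈ E) → (∀ i : ℕ, i + 1 < n → θ i + d ≤ θ (i + 1)) →
    θ (n - 1) - θ 0 ≤ 1 → (n : ℝ) ≤ Nst) →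
  volume (E ∩ Ioc 0 (2 * Real.pi)) ≤ ENNReal.ofReal (9 * d * Nst)

/-- **TOP.** (200 lines)  From the directional tails to the exponential integral, over the part `‖f‖ ≥ u L`
(`u = 0`: everything, then the condition is `a < 1/2`).
Proof. Choose `m : ℕ` (`m ≥ 3`) with `c = cos (π/m)` so close to `1` that `a' = a/c²`, `η = 1 - a' (1 + √(1 - c² u²)) > 0`.
For `w ∈ [u, 1]` the set `{w L ≤ ‖f‖}` is contained in the union over `q < m` of `{w c L ≤ Re (e^{-iφ_q} f)}`, `φ_q = 2πq/m`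
(some `φ_q` is at distance `≤ π/m` from `arg f θ`), so its measure is `≤ m C₀ exp (-L (1 - √(1 - w²c²)))`. With
`y = √(1 - w²c²) ≤ √(1 - c²u²)`: `a w² - (1 - y) = a' (1 - y²) - (1 - y) = -(1 - y) (1 - a' (1 + y)) ≤ -(1 - y) η ≤ -η c² w²/2`
(`1 - y ≥ (1 - y²)/2`). Layer cake for `exp (a ‖f‖²/L)` over `{‖f‖ ≥ u L}`:
`∫ = exp (a u² L) vol {‖f‖ ≥ uL} + ∫_{w=u}^1 2 a w L exp (a w² L) vol {‖f‖ ≥ w L} dw ≤ m C₀ (1 + ∫_0^∞ 2 a w L exp (-η c² w² L/2) dw)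
= m C₀ (1 + 2a/(η c²))`. (Or sum over dyadic-free slices `w² L ∈ [k, k+1)`:
`∫ ≤ ∑_k exp (a (k+1)) vol {‖f‖² ≥ k L, ‖f‖ ≥ u L} ≤ e^a m C₀ ∑_k exp (-η c² k/2) · const` - this is simpler in Lean: for
`k ≥ u² L` use the above with `w² = k/L`, and at most one `k < u² L` contributes, with `w = u`.) -/
def S_TOP : Prop := ∀ a u C₀ : ℝ, 0 < a → 0 ≤ u → u ≤ 1 → 0 ≤ C₀ → a * (1 + Real.sqrt (1 - u ^ 2)) < 1 → ∃ K : ℝ,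
  ∀ (L : ℝ) (f : ℝ → ℂ), 0 < L → Continuous f → (∀ θ, ‖f θ‖ ≤ L) →
    (∀ φ x : ℝ, 0 ≤ x → x ≤ L →
      volume {θ : ℝ | θ ∈ Ioc 0 (2 * Real.pi) ∧ x ≤ (Complex.exp (-(φ * Complex.I)) * f θ).re} ≤
        ENNReal.ofReal (C₀ * Real.exp (-(L - Real.sqrt (L ^ 2 - x ^ 2))))) →
    ∫ θ in {θ : ℝ | θ ∈ Ioc 0 (2 * Real.pi) ∧ u * L ≤ ‖f θ‖}, Real.exp (a * ‖f θ‖ ^ 2 / L) ≤ K

/-- **EXPM.** (120 lines)  From the tails to exponential moments.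
Proof. Layer cake: `∫ exp (T f) ≤ 2π + ∫_0^L T exp (T x) vol {f ≥ x} dx ≤ 2π + C₀ T ∫_0^L exp (T x - L + √(L² - x²)) dx`, and
`T x + √(L² - x²) ≤ L √(1 + T²)` (Cauchy-Schwarz). (Or: cut `[0, L]` into `⌈L⌉` pieces `[k, k+1)`:
`∫ exp (T f) ≤ 2π + ∑_{k ≤ L} exp (T (k+1)) vol {f ≥ k}`.) -/
def S_EXPM : Prop := ∀ T C₀ : ℝ, 0 ≤ T → 0 ≤ C₀ → ∃ K : ℝ, 0 ≤ K ∧
  ∀ (L : ℝ) (f : ℝ → ℝ), 0 < L → Continuous f → (∀ θ, |f θ| ≤ L) →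
    (∀ x : ℝ, 0 ≤ x → x ≤ L → volume {θ : ℝ | θ ∈ Ioc 0 (2 * Real.pi) ∧ x ≤ f θ} ≤
        ENNReal.ofReal (C₀ * Real.exp (-(L - Real.sqrt (L ^ 2 - x ^ 2))))) →
    ∫ θ in (0:ℝ)..(2 * Real.pi), Real.exp (T * f θ) ≤ K * (1 + L) * Real.exp (L * (Real.sqrt (1 + T ^ 2) - 1))

end V5helper73.GC
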