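import Pool.Agent.R250.MC4
import Pool.Agent.V5helper73.GC.Stm0

/-! # Project GCH, second wave -/

set_option autoImplicit false
open Complex Metric Set Filter Topology MeasureTheory

namespace V5helper73.GC

open Pool.Agent.W677.Mar Pool.Agent.R250.MC

/-- **FAMH.** (150 lines)  The value `h_s(z)` is holomorphic in the parameter `s` (the library has `Fam.d1`, `Fam.dh`: the
derivatives `ψ_s'(z)`, `h_s'(z)` are), and vanishes at `s = 0`.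
Proof. `|h_s(z)| ≤ log (|z|²/(|z|²-1))` (`goluzin_ext`). If `|z| ≥ 2` this is `≤ log (4/3) < 1`, so
`h_s(z) = Complex.log (ψ_s'(z))`, with `ψ_s'(z)` in the slit plane and holomorphic in `s` (`Fam.d1`).
Step: let the claim hold at `z₀`, and `|z - z₀| ≤ η (|z₀| - 1)` with `η` small, absolute (`η = 1/20`); by the Bloch bound
(`bloch`-type lemmas: `H_bloch`, `IsSig.deriv_h`, Pool.Agent.TH325.SI `bloch_ext` gives `‖deriv h (ep r θ)‖ ≤ 6/(r (r-1))`)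
`|h_s(z) - h_s(z₀)| ≤ 1`, so `h_s(z) = h_s(z₀) + Complex.log (ψ_s'(z) / ψ_s'(z₀))`. Induction on `k`: the claim holds for all
`z` with `|z| ≥ 1 + (1-η)^k` (move radially: `z₀ = (1 + (|z|-1)/(1-η)) z/|z|`).
At `s = 0`: `deriv (h 0) = 0` (`Fam.h0`) outside the unit disc (connected), and `h 0 → 0` at infinity. -/
def S_FAMH : Prop := ∀ ψ h : ℂ → ℂ → ℂ, Fam ψ h → ∀ z : ℂ, 1 < ‖z‖ →
  DifferentiableOn ℂ (fun s => h s z) (ball 0 1) ∧ h 0 z = 0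

/-- **AREA2.** (150 lines)  The mean square of `ψ'`.
Proof. `Y(v) = v ψ(1/v)`, `Y - v Y' = exp H`. The area theorem: `t1 Y S.G (V := X) R` (MarG1) says `J R (Y/z) (Y/z)' ≤ 0`; with the
Taylor coefficients `a_j` of `Y` (`a_0 = 1`) this is `∑ (j-1) |a_j|² R^(2j) ≤ 0` (see the computation inside `t1`, or the
lemma `area` it uses with `V = id`, `m = 1`), so `∑_{j≥2} (j-1) |a_j|² ≤ 1` (`R → 1`). `exp H = Y - v Y' = ∑ (1-j) a_j v^j`,
so by Parseval the mean of `|exp H|²` over `|v| = s` is `1 + ∑_{j≥2} (j-1)² |a_j|² s^(2j) ≤ 1 + max_j (j-1) s^(2j) ≤ 1 + 1/(1-s²)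
≤ 2/(1-s²)` (`(j-1) q^j ≤ 1 + q + ... ≤ 1/(1-q)`). -/
def S_AREA2 : Prop := ∀ Y H : ℂ → ℂ, Sg Y H → ∀ s : ℝ, 0 < s → s < 1 →
  (1 / (2 * Real.pi)) * ∫ θ in (0:ℝ)..(2 * Real.pi), ‖Complex.exp (H (circleMap 0 s θ))‖ ^ 2 ≤ 2 / (1 - s ^ 2)

/-- **HOLD.** (40 lines)  Hölder's inequality (log-convexity). -/
def S_HOLD : Prop := ∀ f : ℝ → ℝ, Continuous f → ∀ α β w : ℝ, 0 ≤ w → w ≤ 1 →
  ∫ θ in (0:ℝ)..(2 * Real.pi), Real.exp (((1 - w) * α + w * β) * f θ) ≤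
    (∫ θ in (0:ℝ)..(2 * Real.pi), Real.exp (α * f θ)) ^ (1 - w) * (∫ θ in (0:ℝ)..(2 * Real.pi), Real.exp (β * f θ)) ^ w

/-- **CAU.** (40 lines)  Taylor coefficients and the mean of the modulus. -/
def S_CAU : Prop := ∀ g : ℂ → ℂ, DifferentiableOn ℂ g (ball 0 1) → ∀ (m : ℕ) (s : ℝ), 0 < s → s < 1 →
  ‖((m.factorial : ℂ)⁻¹ * iteratedDeriv m g 0)‖ * s ^ m ≤
    (1 / (2 * Real.pi)) * ∫ θ in (0:ℝ)..(2 * Real.pi), ‖g (circleMap 0 s θ)‖

/-- **SB.** (100 lines)  From the class `S` to the class `Σ` (disc coordinates: `ψ = 1/f(1/z)`, `Y(v) = v/f(v)`,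
`exp H = Y - v Y' = v² f'/f²`).
Proof. `f(v) = v g(v)`, `g = dslope f 0`, `g(0) = 1`, `g ≠ 0` on the ball by injectivity; `Y = 1/g`. `Y(v)/v = 1/f(v)` is injective
off `0`. `Y - v Y' = (g + v g')/g² = f'/g²` has no zeros (`f' ≠ 0` by injectivity: `Complex` lemmas on derivatives of injective
holomorphic functions, or library), is `1` at `0`; its holomorphic logarithm `H` with `H(0) = 0` exists on the ball
(the ball is simply connected; `exists_log`-like lemmas in MarG2 / `Complex.exists_continuousOn_eqOn_exp_comp` + `log_diff`). -/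
def S_SB : Prop := ∀ f : ℂ → ℂ, DifferentiableOn ℂ f (ball 0 1) → InjOn f (ball 0 1) → f 0 = 0 → deriv f 0 = 1 →
  ∃ Y H : ℂ → ℂ, Sg Y H ∧ ∀ v ∈ ball (0:ℂ) 1, ‖deriv f v‖ * ‖v‖ ^ 2 = ‖f v‖ ^ 2 * Real.exp (H v).re

end V5helper73.GC
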