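import Pool.Agent.V5helper73.GC.Stm1

set_option autoImplicit false
open Complex Metric Set Filter Topology MeasureTheory

namespace V5helper73.GC

open Pool.Agent.W677.Mar
open Pool.Agent.H33R3.Bom (J)

theorem t_AREA : S_AREA := by
  intro Y H S n ζ hζ hζ0 A hA hAe c hc α N
  -- a common radius
  obtain ⟨r0, hr0, hr1, hr⟩ : ∃ r0 : ℝ, 0 < r0 ∧ r0 < 1 ∧ ∀ j, ‖ζ j‖ ≤ r0 := by
    have h1 : (Finset.univ.sup fun j => ‖ζ j‖₊) < (1 : NNReal) := by
      rw [Finset.sup_lt_iff (by simp)]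
      intro j _
      have := mem_ball_zero_iff.1 (hζ j)
      exact_mod_cast this
    refine ⟨max ((Finset.univ.sup fun j => ‖ζ j‖₊ : NNReal) : ℝ) (1 / 2), lt_max_of_lt_right (by norm_num), max_lt (by exact_mod_cast h1) (by norm_num), fun j => ?_⟩
    apply le_max_of_le_left
    have : ‖ζ j‖₊ ≤ Finset.univ.sup fun j => ‖ζ j‖₊ := Finset.le_sup (f := fun j => ‖ζ j‖₊) (Finset.mem_univ j)
    exact_mod_cast this
  set Cα : ℝ := ∑ j, ‖α j‖ with hCα
  have hCα0 : 0 ≤ Cα := Finset.sum_nonneg fun j _ => norm_nonneg _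
  set C : ℕ → ℂ := fun k => ∑ j, α j * c j k with hC
  set D : ℕ → ℂ := fun k => ∑ j, α j * de (ζ j) k with hD
  set Φ : ℂ → ℂ := fun z => ∑ j, α j * A j z with hΦ
  have hD0 : D 0 = 0 := by
    simp only [hD, de_zero, mul_zero, Finset.sum_const_zero]
  have hΦs : ∀ z ∈ ball (0 : ℂ) 1, HasSum (fun k : ℕ => C k * z ^ k) (Φ z) := by
    intro z hz
    have h1 : HasSum (fun k : ℕ => ∑ j, α j * (c j k * z ^ k)) (∑ j, α j * A j z) :=
      hasSum_sum fun j _ => (hc j z hz).mul_left (α j)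
    refine h1.congr_fun ?_ |> fun h => h
    intro k
    simp only [hC, Finset.sum_mul]
    exact Finset.sum_congr rfl fun j _ => by ring
  have hDn : ∀ k, ‖D k‖ ≤ Cα * r0 ^ k := by
    intro k
    rw [hCα, Finset.sum_mul]
    refine (norm_sum_le _ _).trans (Finset.sum_le_sum fun j _ => ?_)
    rw [norm_mul]
    have h1 := de_norm_le (ζ j) k
    rw [one_mul] at h1
    exact mul_le_mul_of_nonneg_left (h1.trans (by gcongr; exact hr j)) (norm_nonneg _)
  have hDk : ∀ k : ℕ, (k : ℝ) * ‖D k‖ ^ 2 = ‖∑ j, α j * ζ j ^ k‖ ^ 2 / k := by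
    intro k
    rcases Nat.eq_zero_or_pos k with h | h
    · simp [h]
    · have hk : (k : ℂ) ≠ 0 := by exact_mod_cast h.ne'
      have hk' : (k : ℝ) ≠ 0 := by exact_mod_cast h.ne'
      have e : D k = -((∑ j, α j * ζ j ^ k) / k) := by
        simp only [hD, de]
        rw [Finset.sum_div, ← Finset.sum_neg_distrib]
        exact Finset.sum_congr rfl fun j _ => by ring
      rw [e, norm_neg, norm_div, Complex.norm_natCast]
      field_simp
  have key : ∀ R : ℝ, r0 < R → R < 1 →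
      ∑ k ∈ Finset.range N, (k : ℝ) * ‖C k‖ ^ 2 * R ^ (2 * k) ≤
      ∑' k : ℕ, ‖∑ j, α j * ζ j ^ k‖ ^ 2 / k * (R⁻¹) ^ (2 * k) := by
    intro R hR hR1
    have hR0 : 0 < R := hr0.trans hR
    obtain ⟨g1, g2, g3⟩ := Pool.Agent.H643R3.BomC4.taskC4 R r0 Cα C D Φ hr0 hR hR1 hD0 hΦs hDn
    have g4 := t3 t1 Y S.G R hR0 hR1 (fun z => ∑ j, α j * -(Y (ζ j) / ζ j - Y z / z)⁻¹)
      (fun z => Φ z + ∑' k : ℕ, D k * (z⁻¹) ^ k) (by
        intro δ hδ
        have h1 : ∀ j, ∃ q : Polynomial ℂ, ∀ z : ℂ, ‖z‖ = R → ‖q.eval (Y z / z) - (Y (ζ j) / ζ j - Y z / z)⁻¹‖ ≤ δ / (Cα + 1) := by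
          intro j
          exact t2 Y S.G R hR1 (ζ j) (hζ0 j) ((hr j).trans_lt hR) _ (by positivity)
        choose q hq using h1
        refine ⟨∑ j, Polynomial.C (α j) * -q j, fun z hz => ?_⟩
        have e : (∑ j, Polynomial.C (α j) * -q j).eval (Y z / z) - ∑ j, α j * -(Y (ζ j) / ζ j - Y z / z)⁻¹ =
            ∑ j, α j * -((q j).eval (Y z / z) - (Y (ζ j) / ζ j - Y z / z)⁻¹) := by
          rw [Polynomial.eval_finsetSum, ← Finset.sum_sub_distrib]
          refine Finset.sum_congr rfl fun j _ => ?_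
          rw [Polynomial.eval_mul, Polynomial.eval_C, Polynomial.eval_neg]
          ring
        rw [e]
        calc ‖∑ j, α j * -((q j).eval (Y z / z) - (Y (ζ j) / ζ j - Y z / z)⁻¹)‖
            ≤ ∑ j, ‖α j‖ * (δ / (Cα + 1)) := by
              refine (norm_sum_le _ _).trans (Finset.sum_le_sum fun j _ => ?_)
              rw [norm_mul, norm_neg]
              exact mul_le_mul_of_nonneg_left (hq j z hz) (norm_nonneg _)
          _ = Cα * (δ / (Cα + 1)) := by rw [← Finset.sum_mul]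
          _ ≤ δ := by
              rw [mul_div_assoc', div_le_iff₀ (by positivity)]
              nlinarith) (by
        intro z hz
        have hsum : HasDerivAt (fun w => ∑ j, α j * (A j w + ∑' k : ℕ, de (ζ j) k * (w⁻¹) ^ k))
            (∑ j, α j * (-(Y (ζ j) / ζ j - Y z / z)⁻¹ * deriv (fun z => Y z / z) z)) z := by
          apply HasDerivAt.fun_sum
          intro j _
          exact (phi_deriv S (hζ0 j) (hζ j) (hA j) (hAe j) (by rw [hz]; exact (hr j).trans_lt hR) (by rw [hz]; exact hR1)).const_mul _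
        have hop : {w : ℂ | r0 < ‖w‖} ∈ 𝓝 z := (isOpen_lt continuous_const continuous_norm).mem_nhds (by
          show r0 < ‖z‖
          rw [hz]; exact hR)
        have hev : (fun w => Φ w + ∑' k : ℕ, D k * (w⁻¹) ^ k) =ᶠ[𝓝 z]
            fun w => ∑ j, α j * (A j w + ∑' k : ℕ, de (ζ j) k * (w⁻¹) ^ k) := by
          filter_upwards [hop] with w hw
          have hs : HasSum (fun k : ℕ => D k * (w⁻¹) ^ k) (∑ j, α j * ∑' k : ℕ, de (ζ j) k * (w⁻¹) ^ k) := by
            have h1 : HasSum (fun k : ℕ => ∑ j, α j * (de (ζ j) k * (w⁻¹) ^ k)) (∑ j, α j * ∑' k : ℕ, de (ζ j) k * (w⁻¹) ^ k) :=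
              hasSum_sum fun j _ => ((de_hasSum (lt_of_le_of_lt (hr j) hw)).summable.hasSum).mul_left (α j)
            refine h1.congr_fun ?_ |> fun h => h
            intro k
            simp only [hD, Finset.sum_mul]
            exact Finset.sum_congr rfl fun j _ => by ring
          rw [hs.tsum_eq]
          simp only [hΦ, mul_add, Finset.sum_add_distrib]
        refine (hsum.congr_of_eventuallyEq hev).congr_deriv ?_
        rw [Finset.sum_mul]
        exact Finset.sum_congr rfl fun j _ => by ring)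
    rw [g3] at g4
    have hpi : 0 < 2 * Real.pi := by positivity
    have g5 : ∑' k : ℕ, (k : ℝ) * ‖C k‖ ^ 2 * R ^ (2 * k) ≤
        ∑' k : ℕ, (k : ℝ) * ‖D k‖ ^ 2 * (R⁻¹) ^ (2 * k) := by
      by_contra hcon
      push Not at hcon
      have := mul_pos hpi (sub_pos.2 hcon)
      linarith
    refine le_trans (g1.sum_le_tsum _ (fun k _ => by positivity)) (g5.trans (le_of_eq ?_))
    exact tsum_congr fun k => by rw [hDk]
  have hL : Tendsto (fun R : ℝ => ∑ k ∈ Finset.range N, (k : ℝ) * ‖C k‖ ^ 2 * R ^ (2 * k))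
      (𝓝[<] 1) (𝓝 (∑ k ∈ Finset.range N, (k : ℝ) * ‖C k‖ ^ 2)) := by
    have hcont : Continuous (fun R : ℝ => ∑ k ∈ Finset.range N, (k : ℝ) * ‖C k‖ ^ 2 * R ^ (2 * k)) := by
      fun_prop
    have := (hcont.tendsto 1).mono_left (nhdsWithin_le_nhds (s := Iio 1))
    simpa using this
  set R1 : ℝ := (1 + r0) / 2 with hR1def
  have hR11 : R1 < 1 := by rw [hR1def]; linarith
  have hR1r : r0 < R1 := by rw [hR1def]; linarith
  have hR10 : 0 < R1 := hr0.trans hR1r
  have hRt : Tendsto (fun R : ℝ => ∑' k : ℕ, ‖∑ j, α j * ζ j ^ k‖ ^ 2 / k * (R⁻¹) ^ (2 * k)) (𝓝[<] 1)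
      (𝓝 (∑' k : ℕ, ‖∑ j, α j * ζ j ^ k‖ ^ 2 / k)) := by
    have hlim : ∀ k : ℕ, Tendsto (fun R : ℝ => ‖∑ j, α j * ζ j ^ k‖ ^ 2 / k * (R⁻¹) ^ (2 * k)) (𝓝[<] 1)
        (𝓝 (‖∑ j, α j * ζ j ^ k‖ ^ 2 / k)) := by
      intro k
      have hc1 : ContinuousAt (fun R : ℝ => ‖∑ j, α j * ζ j ^ k‖ ^ 2 / k * (R⁻¹) ^ (2 * k)) 1 := by
        apply ContinuousAt.mul continuousAt_const
        apply ContinuousAt.pow
        exact continuousAt_inv₀ one_ne_zero
      have := hc1.tendsto.mono_left (nhdsWithin_le_nhds (s := Iio 1))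
      simpa using this
    refine tendsto_tsum_of_dominated_convergence (bound := fun k => Cα ^ 2 * ((r0 / R1) ^ 2) ^ k) ?_ hlim ?_
    · apply Summable.mul_left
      apply summable_geometric_of_lt_one (by positivity)
      have : r0 / R1 < 1 := (div_lt_one hR10).2 hR1r
      have h0 : 0 ≤ r0 / R1 := by positivity
      nlinarith
    · filter_upwards [Ioo_mem_nhdsLT hR11] with R hR k
      have hR0 : 0 < R := hR10.trans hR.1
      rw [Real.norm_of_nonneg (by positivity)]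
      have h1 : ‖∑ j, α j * ζ j ^ k‖ ≤ Cα * r0 ^ k := by
        rw [hCα, Finset.sum_mul]
        refine (norm_sum_le _ _).trans (Finset.sum_le_sum fun j _ => ?_)
        rw [norm_mul, norm_pow]
        have := hr j
        gcongr
      have h2 : R⁻¹ ≤ R1⁻¹ := inv_anti₀ hR10 hR.1.le
      calc ‖∑ j, α j * ζ j ^ k‖ ^ 2 / k * (R⁻¹) ^ (2 * k) ≤ ‖∑ j, α j * ζ j ^ k‖ ^ 2 * (R⁻¹) ^ (2 * k) := by
            apply mul_le_mul_of_nonneg_right _ (by positivity)
            rcases Nat.eq_zero_or_pos k with h | h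
            · rw [h]; simp
            · exact div_le_self (by positivity) (by exact_mod_cast h)
        _ ≤ (Cα * r0 ^ k) ^ 2 * (R1⁻¹) ^ (2 * k) := by gcongr
        _ = _ := by
            rw [div_pow, div_pow, mul_pow, ← pow_mul, ← pow_mul, ← pow_mul, inv_pow, mul_comm k 2]
            field_simp
  refine le_of_tendsto_of_tendsto hL hRt ?_
  filter_upwards [Ioo_mem_nhdsLT hr1] with R hR
  exact key R hR.1 hR.2

end V5helper73.GC
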