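import Pool.Agent.V5helper73.GC.TAIL
import Pool.Agent.V5helper6.GC.TOP
import Pool.Agent.V5helper58.GC.EXPM
import Pool.Agent.W677.MarF3

set_option autoImplicit false
open Complex Metric Set Filter Topology MeasureTheory

namespace V5helper73.GC

open Pool.Agent.W677.Mar

/-- The point `r e^{iθ}`. -/
noncomputable def circ (r θ : ℝ) : ℂ := (r : ℂ) * Complex.exp ((θ : ℂ) * Complex.I)

/-- `ψ ∈ Σ` and `h = log ψ'` (the branch vanishing at infinity). -/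
def IsSig (ψ h : ℂ → ℂ) : Prop :=
  DifferentiableOn ℂ ψ {z : ℂ | 1 < ‖z‖} ∧
  Set.InjOn ψ {z : ℂ | 1 < ‖z‖} ∧
  (∃ b : ℂ, Filter.Tendsto (fun z => ψ z - z) (Bornology.cobounded ℂ) (nhds b)) ∧
  DifferentiableOn ℂ h {z : ℂ | 1 < ‖z‖} ∧
  (∀ z : ℂ, 1 < ‖z‖ → Complex.exp (h z) = deriv ψ z) ∧
  Filter.Tendsto h (Bornology.cobounded ℂ) (nhds 0)

/-- `log (R² / (R² - 1))` -/
noncomputable def LL (R : ℝ) : ℝ := Real.log (R ^ 2 / (R ^ 2 - 1))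

theorem LL_eq {R : ℝ} (hR : 1 < R) : -Real.log (1 - (R⁻¹) ^ 2) = LL R := by
  unfold LL
  have h0 : 0 < R := by linarith
  have h2 : 0 < R ^ 2 - 1 := by nlinarith
  have : 1 - (R⁻¹) ^ 2 = (R ^ 2 / (R ^ 2 - 1))⁻¹ := by
    rw [inv_div]
    field_simp
  rw [this, Real.log_inv, neg_neg]

theorem LL_pos {R : ℝ} (hR : 1 < R) : 0 < LL R := by
  unfold LL
  apply Real.log_pos
  have h2 : 0 < R ^ 2 - 1 := by nlinarith
  rw [one_lt_div h2]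
  linarith

theorem norm_circ {R : ℝ} (hR : 0 ≤ R) (θ : ℝ) : ‖circ R θ‖ = R := by
  unfold circ
  rw [norm_mul, Complex.norm_exp_ofReal_mul_I, mul_one, Complex.norm_real, Real.norm_of_nonneg hR]

theorem hat_circ {h : ℂ → ℂ} {R : ℝ} (hR : 0 < R) (θ : ℝ) : hat h 0 (circleMap 0 R⁻¹ (2 * Real.pi - θ)) = h (circ R θ) := by
  have hne : circleMap 0 R⁻¹ (2 * Real.pi - θ) ≠ 0 := by
    rw [← norm_pos_iff, norm_cm' (by positivity)]
    positivity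
  rw [hat_ne _ _ hne]
  congr 1
  unfold circleMap circ
  rw [zero_add, mul_inv, ← Complex.exp_neg]
  push_cast
  rw [inv_inv]
  congr 1
  have : -((2 * (Real.pi : ℂ) - θ) * Complex.I) = (θ : ℂ) * Complex.I - 2 * Real.pi * Complex.I := by ring
  rw [this, Complex.exp_sub, Complex.exp_two_pi_mul_I, div_one]

theorem IsSig.sg {ψ h : ℂ → ℂ} (S : IsSig ψ h) : Sg (hat (fun z => ψ z / z) 1) (hat h 0) :=
  toSg S.1 S.2.1 S.2.2.1 S.2.2.2.1 S.2.2.2.2.1 S.2.2.2.2.2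

theorem IsSig.cont {ψ h : ℂ → ℂ} (S : IsSig ψ h) {R : ℝ} (hR : 1 < R) : Continuous fun θ : ℝ => h (circ R θ) := by
  apply S.2.2.2.1.continuousOn.comp_continuous
  · unfold circ; fun_prop
  · intro θ
    show 1 < ‖circ R θ‖
    rw [norm_circ (by linarith)]
    exact hR

theorem IsSig.gol {ψ h : ℂ → ℂ} (S : IsSig ψ h) {R : ℝ} (hR : 1 < R) (θ : ℝ) : ‖h (circ R θ)‖ ≤ LL R := by
  have hR0 : 0 < R := by linarith
  have hR1 : R⁻¹ < 1 := inv_lt_one_of_one_lt₀ hR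
  rw [← hat_circ (h := h) hR0 θ, ← LL_eq hR]
  have h1 := goluzin S.sg (ζ := circleMap 0 R⁻¹ (2 * Real.pi - θ)) (by
    rw [mem_ball_zero_iff, norm_cm' (by positivity)]
    exact hR1)
  rwa [norm_cm' (by positivity)] at h1

/-- reflection of a set of the circle -/
theorem vol_refl (F : ℝ → ℝ) (x : ℝ) :
    volume {θ : ℝ | θ ∈ Ioc 0 (2 * Real.pi) ∧ x ≤ F (2 * Real.pi - θ)} ≤
      volume {θ : ℝ | θ ∈ Ioc 0 (2 * Real.pi) ∧ x ≤ F θ} := by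
  have h1 : {θ : ℝ | θ ∈ Ioc 0 (2 * Real.pi) ∧ x ≤ F (2 * Real.pi - θ)} ⊆
      (fun θ => 2 * Real.pi - θ) ⁻¹' ({θ : ℝ | θ ∈ Ioc 0 (2 * Real.pi) ∧ x ≤ F θ} ∪ {0}) := by
    rintro θ ⟨⟨h2, h3⟩, h4⟩
    rw [mem_preimage]
    rcases eq_or_lt_of_le h3 with h | h
    · right
      rw [h]
      simp
    · left
      exact ⟨⟨by linarith, by linarith⟩, h4⟩
  have h5 : MeasurePreserving (fun θ : ℝ => 2 * Real.pi - θ) volume volume := Measure.measurePreserving_sub_left volume (2 * Real.pi)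
  calc volume {θ : ℝ | θ ∈ Ioc 0 (2 * Real.pi) ∧ x ≤ F (2 * Real.pi - θ)}
      ≤ volume ((fun θ => 2 * Real.pi - θ) ⁻¹' ({θ : ℝ | θ ∈ Ioc 0 (2 * Real.pi) ∧ x ≤ F θ} ∪ {0})) := measure_mono h1
    _ = volume ({θ : ℝ | θ ∈ Ioc 0 (2 * Real.pi) ∧ x ≤ F θ} ∪ {0}) := by
        exact h5.measure_preimage_equiv (f := MeasurableEquiv.subLeft (2 * Real.pi)) _
    _ ≤ volume {θ : ℝ | θ ∈ Ioc 0 (2 * Real.pi) ∧ x ≤ F θ} + volume ({0} : Set ℝ) := measure_union_le _ _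
    _ = _ := by rw [Real.volume_singleton, add_zero]

/-- the tail bound in the exterior -/
theorem tail_ext : ∃ C₀ : ℝ, 0 ≤ C₀ ∧ ∀ R : ℝ, 1 < R → ∀ ψ h : ℂ → ℂ, IsSig ψ h → ∀ φ x : ℝ, 0 ≤ x → x ≤ LL R →
    volume {θ : ℝ | θ ∈ Ioc 0 (2 * Real.pi) ∧ x ≤ (Complex.exp (-(φ * Complex.I)) * h (circ R θ)).re} ≤
      ENNReal.ofReal (C₀ * Real.exp (-(LL R - Real.sqrt (LL R ^ 2 - x ^ 2)))) := by
  obtain ⟨C₀, hC, h1⟩ := t_TAIL
  refine ⟨C₀, hC, fun R hR ψ h S φ x hx0 hx => ?_⟩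
  have hR0 : 0 < R := by linarith
  have h2 := h1 _ _ S.sg R⁻¹ (by positivity) (inv_lt_one_of_one_lt₀ hR) φ x hx0 (by rw [LL_eq hR]; exact hx)
  rw [LL_eq hR] at h2
  refine le_trans ?_ h2
  have h3 := vol_refl (fun θ => (Complex.exp (-(φ * Complex.I)) * hat h 0 (circleMap 0 R⁻¹ θ)).re) x
  simp only [hat_circ hR0] at h3
  exact h3

end V5helper73.GC
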