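import Pool.Agent.V5helper73.GC.TAILG
import Pool.Agent.V5helper73.GC.EXT
import Pool.Agent.V5helper6.GC.FAMH

set_option autoImplicit false
open Complex Metric Set Filter Topology MeasureTheory

namespace V5helper73.GC

open Pool.Agent.W677.Mar Pool.Agent.R250.MC

/-- Schwarz's lemma with a non-strict bound -/
theorem schwarz_le {G : ℂ → ℂ} (hG : DifferentiableOn ℂ G (ball 0 1)) (h0 : G 0 = 0) {B : ℝ}
    (hB : ∀ s ∈ ball (0:ℂ) 1, ‖G s‖ ≤ B) {s : ℂ} (hs : s ∈ ball (0:ℂ) 1) : ‖G s‖ ≤ B * ‖s‖ := by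
  have hmap : MapsTo G (ball (0:ℂ) 1) (closedBall (G 0) B) := by
    intro w hw
    rw [h0, mem_closedBall_zero_iff]
    exact hB w hw
  have h2 := Complex.dist_le_div_mul_dist_of_mapsTo_ball hG hmap hs
  rw [h0, dist_zero_right, dist_zero_right, div_one] at h2
  exact h2

/-- the inequality of the finite sums for the member with the parameter `s`, divided by `k ≥ |s|` -/
theorem family_ineq {H : ℂ → ℂ → ℂ} (hS : ∀ s ∈ ball (0:ℂ) 1, CharIneq (H s))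
    (hd : ∀ z ∈ ball (0:ℂ) 1, z ≠ 0 → DifferentiableOn ℂ (fun s => H s z) (ball 0 1))
    (h0 : ∀ z ∈ ball (0:ℂ) 1, z ≠ 0 → H 0 z = 0) {k : ℝ} (hk0 : 0 < k) {s : ℂ} (hs : s ∈ ball (0:ℂ) 1) (hsk : ‖s‖ ≤ k) :
    CharIneq (fun z => H s z / k) := by
  intro n ζ hζ hζ0 lam hlam
  set B : ℝ := (lam * ((∑ j, -Real.log (1 - ‖ζ j‖ ^ 2)) - yy ζ) +
      ((∑ j, -Real.log (1 - ‖ζ j‖ ^ 2)) + yy ζ) / lam) / 2 with hB
  have hG : DifferentiableOn ℂ (fun s => ∑ j, H s (ζ j)) (ball 0 1) :=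
    DifferentiableOn.fun_sum fun j _ => hd (ζ j) (hζ j) (hζ0 j)
  have hG0 : (fun s => ∑ j, H s (ζ j)) 0 = 0 := Finset.sum_eq_zero fun j _ => h0 (ζ j) (hζ j) (hζ0 j)
  have hGB : ∀ s ∈ ball (0:ℂ) 1, ‖(fun s => ∑ j, H s (ζ j)) s‖ ≤ B := fun s hs => hS s hs n ζ hζ hζ0 lam hlam
  have h1 := schwarz_le hG hG0 hGB hs
  have hB0 : 0 ≤ B := (norm_nonneg _).trans (hGB s hs)
  have e : ∑ j, H s (ζ j) / (k : ℂ) = (∑ j, H s (ζ j)) / k := (Finset.sum_div _ _ _).symm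
  rw [e, norm_div, Complex.norm_real, Real.norm_of_nonneg hk0.le, div_le_iff₀ hk0]
  exact h1.trans (mul_le_mul_of_nonneg_left hsk hB0)

/-- one point -/
theorem CharIneq.one {H : ℂ → ℂ} (hH : CharIneq H) {z : ℂ} (hz : z ∈ ball (0:ℂ) 1) (hz0 : z ≠ 0) :
    ‖H z‖ ≤ -Real.log (1 - ‖z‖ ^ 2) := by
  have h1 := hH 1 (fun _ => z) (fun _ => hz) (fun _ => hz0) 1 one_pos
  have hy : yy (fun _ : Fin 1 => z) = 0 := by
    unfold yy
    simp
  rw [hy] at h1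
  simp only [Finset.univ_unique, Finset.sum_const, Finset.card_singleton, one_smul, sub_zero, add_zero, one_mul, div_one] at h1
  linarith

/-- the tail bound for the members of a family, divided by `k` -/
theorem tail_fam : ∃ C₀ : ℝ, 0 ≤ C₀ ∧ ∀ ψ h : ℂ → ℂ → ℂ, Fam ψ h → ∀ k : ℝ, 0 < k → ∀ s : ℂ, ‖s‖ < 1 → ‖s‖ ≤ k → ∀ R : ℝ, 1 < R →
    (∀ θ : ℝ, ‖h s (circ R θ) / k‖ ≤ LL R) ∧
    (Continuous fun θ : ℝ => h s (circ R θ) / k) ∧
    ∀ φ x : ℝ, 0 ≤ x → x ≤ LL R →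
    volume {θ : ℝ | θ ∈ Ioc 0 (2 * Real.pi) ∧ x ≤ (Complex.exp (-(φ * Complex.I)) * (h s (circ R θ) / k)).re} ≤
      ENNReal.ofReal (C₀ * Real.exp (-(LL R - Real.sqrt (LL R ^ 2 - x ^ 2)))) := by
  obtain ⟨C₀, hC, h1⟩ := tailG
  refine ⟨C₀, hC, fun ψ h F k hk s hs hsk R hR => ?_⟩
  have hR0 : 0 < R := by linarith
  have hR1 : R⁻¹ < 1 := inv_lt_one_of_one_lt₀ hR
  have hsb : s ∈ ball (0:ℂ) 1 := mem_ball_zero_iff.2 hs
  have hS : ∀ s ∈ ball (0:ℂ) 1, CharIneq (hat (h s) 0) := fun s hs => by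
    have S : Sg (hat (fun z => ψ s z / z) 1) (hat (h s) 0) := Pool.Agent.R250.MC.IsSig.sg (F.1 s (mem_ball_zero_iff.1 hs))
    exact fun n ζ hζ hζ0 lam hlam => t_CHAR _ _ S n ζ hζ hζ0 lam hlam
  have hd : ∀ z ∈ ball (0:ℂ) 1, z ≠ 0 → DifferentiableOn ℂ (fun s => hat (h s) 0 z) (ball 0 1) := fun z hz hz0 => by
    simp only [hat_ne _ _ hz0]
    exact (V5helper6.GC.t_FAMH ψ h F z⁻¹ (inv_ext hz hz0)).1
  have h0 : ∀ z ∈ ball (0:ℂ) 1, z ≠ 0 → hat (h 0) 0 z = 0 := fun z hz hz0 => by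
    rw [hat_ne _ _ hz0]
    exact (V5helper6.GC.t_FAMH ψ h F z⁻¹ (inv_ext hz hz0)).2
  have hI := family_ineq (H := fun s => hat (h s) 0) hS hd h0 hk hsb hsk
  have hcont : ContinuousOn (fun z => hat (h s) 0 z / k) (ball 0 1) := by
    have S : Sg (hat (fun z => ψ s z / z) 1) (hat (h s) 0) := Pool.Agent.R250.MC.IsSig.sg (F.1 s hs)
    exact (S.dH.continuousOn).div_const _
  refine ⟨fun θ => ?_, ?_, fun φ x hx0 hx => ?_⟩
  · have hb : circleMap 0 R⁻¹ (2 * Real.pi - θ) ∈ ball (0:ℂ) 1 := by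
      rw [mem_ball_zero_iff, norm_cm' (by positivity)]
      exact hR1
    have hne : circleMap 0 R⁻¹ (2 * Real.pi - θ) ≠ 0 := by
      rw [← norm_pos_iff, norm_cm' (by positivity)]
      positivity
    have h2 := hI.one hb hne
    rw [norm_cm' (by positivity), LL_eq hR, hat_circ hR0] at h2
    exact h2
  · have := V5helper73.GC.IsSig.cont (ψ := ψ s) (h := h s) (F.1 s hs) hR
    exact this.div_const _
  · have h2 := h1 _ hcont hI R⁻¹ (by positivity) hR1 φ x hx0 (by rw [LL_eq hR]; exact hx)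
    rw [LL_eq hR] at h2
    refine le_trans ?_ h2
    have h3 := vol_refl (fun θ => (Complex.exp (-(φ * Complex.I)) * (hat (h s) 0 (circleMap 0 R⁻¹ θ) / k)).re) x
    simp only [hat_circ hR0] at h3
    exact h3

end V5helper73.GC
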