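import Pool.Agent.W677.MarG3
import Pool.Agent.V5helper73.GC.Stm0

set_option autoImplicit false
open Complex Metric Set Filter Topology MeasureTheory

namespace V5helper73.GC

open Pool.Agent.W677.Mar

/-- `-log (1 - z conj w)` -/
noncomputable def BB (z w : ℂ) : ℂ := -Complex.log (1 - z * (starRingEnd ℂ) w)

/-- **AREA.** The area inequality for a combination of logarithms (Grunsky, `n` points).  Adapt `area_log` of MarG3. -/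
def S_AREA : Prop := ∀ Y H : ℂ → ℂ, Sg Y H → ∀ (n : ℕ) (ζ : Fin n → ℂ), (∀ j, ζ j ∈ ball (0:ℂ) 1) → (∀ j, ζ j ≠ 0) →
  ∀ A : Fin n → ℂ → ℂ, (∀ j, DifferentiableOn ℂ (A j) (ball 0 1)) →
  (∀ j, ∀ z ∈ ball (0:ℂ) 1, Complex.exp (A j z) = NN Y (ζ j) z) →
  ∀ c : Fin n → ℕ → ℂ, (∀ j, ∀ z ∈ ball (0:ℂ) 1, HasSum (fun k : ℕ => c j k * z ^ k) (A j z)) →
  ∀ (α : Fin n → ℂ) (N : ℕ),
    ∑ k ∈ Finset.range N, (k : ℝ) * ‖∑ j, α j * c j k‖ ^ 2 ≤ ∑' k : ℕ, ‖∑ j, α j * ζ j ^ k‖ ^ 2 / k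

/-- the off-diagonal sum -/
noncomputable def yy {n : ℕ} (ζ : Fin n → ℂ) : ℝ :=
  (2 / Real.pi) * ∑ j : Fin n, ∑ l : Fin n, if l < j then (BB (ζ j) (ζ l)).im / ((j : ℝ) - (l : ℝ)) else 0

/-- **CHAR.** The inequality for `n` points. -/
def S_CHAR : Prop := ∀ Y H : ℂ → ℂ, Sg Y H → ∀ (n : ℕ) (ζ : Fin n → ℂ), (∀ j, ζ j ∈ ball (0:ℂ) 1) → (∀ j, ζ j ≠ 0) →
  ∀ lam : ℝ, 0 < lam →
    ‖∑ j, H (ζ j)‖ ≤ (lam * ((∑ j, -Real.log (1 - ‖ζ j‖ ^ 2)) - yy ζ) +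
      ((∑ j, -Real.log (1 - ‖ζ j‖ ^ 2)) + yy ζ) / lam) / 2

/-- **TAIL.** The tail bound in disc coordinates. -/
def S_TAIL : Prop := ∃ C₀ : ℝ, 0 ≤ C₀ ∧ ∀ Y H : ℂ → ℂ, Sg Y H → ∀ s : ℝ, 0 < s → s < 1 → ∀ φ x : ℝ, 0 ≤ x →
  x ≤ -Real.log (1 - s ^ 2) →
    volume {θ : ℝ | θ ∈ Ioc 0 (2 * Real.pi) ∧ x ≤ (Complex.exp (-(φ * Complex.I)) * H (circleMap 0 s θ)).re} ≤
      ENNReal.ofReal (C₀ * Real.exp (-(-Real.log (1 - s ^ 2) - Real.sqrt ((-Real.log (1 - s ^ 2)) ^ 2 - x ^ 2))))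

end V5helper73.GC
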