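import Pool.Agent.V5helper73.GC.TAIL

set_option autoImplicit false
open Complex Metric Set Filter Topology MeasureTheory

namespace V5helper73.GC

open Pool.Agent.W677.Mar

/-- the inequality for all finite sets of points -/
def CharIneq (H : ℂ → ℂ) : Prop := ∀ (n : ℕ) (ζ : Fin n → ℂ), (∀ j, ζ j ∈ ball (0:ℂ) 1) → (∀ j, ζ j ≠ 0) →
  ∀ lam : ℝ, 0 < lam →
    ‖∑ j, H (ζ j)‖ ≤ (lam * ((∑ j, -Real.log (1 - ‖ζ j‖ ^ 2)) - yy ζ) +
      ((∑ j, -Real.log (1 - ‖ζ j‖ ^ 2)) + yy ζ) / lam) / 2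

/-- the number of separated points -/
theorem countG {H : ℂ → ℂ} (S : CharIneq H) {s : ℝ} (h0 : 7 / 8 < s) (h1 : s < 1) {φ x : ℝ} (hx : 0 < x)
    (hxL : x ≤ -Real.log (1 - s ^ 2)) (n : ℕ) (θ : ℕ → ℝ)
    (hE : ∀ i : ℕ, i < n → x ≤ (Complex.exp (-(φ * Complex.I)) * H (circleMap 0 s (θ i))).re)
    (hgap : ∀ i : ℕ, i + 1 < n → θ i + (1 - s) ≤ θ (i + 1)) (hsp : θ (n - 1) - θ 0 ≤ 1) :
    (n : ℝ) ≤ Real.exp (20 + Real.sqrt ((-Real.log (1 - s ^ 2)) ^ 2 - x ^ 2)) := by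
  have hs0 : 0 < s := by linarith
  set L : ℝ := -Real.log (1 - s ^ 2) with hL
  rcases Nat.eq_zero_or_pos n with hn | hn
  · rw [hn]
    simp
    positivity
  have hnR : (0 : ℝ) < n := by exact_mod_cast hn
  have hL0 : 0 < L := hx.trans_le hxL
  set ζ : Fin n → ℂ := fun j => circleMap 0 s (θ j) with hζd
  have hζ : ∀ j, ζ j ∈ ball (0:ℂ) 1 := by
    intro j
    rw [mem_ball_zero_iff, hζd]
    simp only
    rw [norm_cm' hs0]
    exact h1
  have hζ0 : ∀ j, ζ j ≠ 0 := by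
    intro j
    rw [← norm_pos_iff, hζd]
    simp only
    rw [norm_cm' hs0]
    exact hs0
  have hτ : (∑ j, -Real.log (1 - ‖ζ j‖ ^ 2)) = n * L := by
    have : ∀ j : Fin n, -Real.log (1 - ‖ζ j‖ ^ 2) = L := by
      intro j
      rw [hζd]
      simp only
      rw [norm_cm' hs0]
    rw [Finset.sum_congr rfl fun j _ => this j]
    simp
  have hy : (n : ℝ) * (Real.log n - 20) ≤ yy ζ := by
    have h2 := V5helper47.GC.t_HAR (s ^ 2) (1 - s) (by nlinarith) (by nlinarith) (by nlinarith) n θ hgap hsp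
    refine h2.trans (le_of_eq ?_)
    unfold yy
    congr 1
    rw [Finset.sum_range (fun j => ∑ l ∈ Finset.range j, bk (s ^ 2) (θ j - θ l) / ((j : ℝ) - (l : ℝ)))]
    refine Finset.sum_congr rfl fun j _ => ?_
    have h3 : ∀ l : Fin n, (if l < j then (BB (ζ j) (ζ l)).im / ((j : ℝ) - (l : ℝ)) else 0) =
        (fun l : ℕ => if l < (j : ℕ) then bk (s ^ 2) (θ j - θ l) / (((j : ℕ) : ℝ) - (l : ℝ)) else 0) l := by
      intro l
      simp only [hζd, BB_im hs0 h1, Fin.lt_def]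
    rw [Finset.sum_congr rfl fun l _ => h3 l, ← Finset.sum_range (fun l : ℕ => if l < (j : ℕ) then bk (s ^ 2) (θ j - θ l) / (((j : ℕ) : ℝ) - (l : ℝ)) else 0)]
    rw [← Finset.sum_filter]
    congr 1
    ext l
    simp only [Finset.mem_filter, Finset.mem_range]
    have := j.2
    constructor
    · intro h; exact ⟨by omega, h⟩
    · intro h; exact h.2
  have hsum : (n : ℝ) * x ≤ ‖∑ j, H (ζ j)‖ := by
    have h2 : (n : ℝ) * x ≤ (Complex.exp (-(φ * Complex.I)) * ∑ j, H (ζ j)).re := by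
      rw [Finset.mul_sum, Complex.re_sum]
      calc (n : ℝ) * x = ∑ _j : Fin n, x := by simp
        _ ≤ _ := Finset.sum_le_sum fun j _ => hE j j.2
    refine h2.trans ((Complex.re_le_norm _).trans ?_)
    rw [norm_mul]
    have : ‖Complex.exp (-(φ * Complex.I))‖ = 1 := by
      rw [← neg_mul, ← Complex.ofReal_neg]
      exact Complex.norm_exp_ofReal_mul_I _
    rw [this, one_mul]
  set q : ℝ := yy ζ / n with hq
  have hyq : yy ζ = n * q := by rw [hq]; field_simp
  have hqk : Real.log n - 20 ≤ q := by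
    rw [hq, le_div_iff₀ hnR]
    linarith
  have hall : ∀ lam : ℝ, 0 < lam → 2 * x ≤ lam * (L - q) + (L + q) / lam := by
    intro lam hlam
    have h2 := hsum.trans (S n ζ hζ hζ0 lam hlam)
    rw [hτ, hyq] at h2
    have e : (lam * ((n : ℝ) * L - n * q) + (n * L + n * q) / lam) / 2 = n * ((lam * (L - q) + (L + q) / lam) / 2) := by
      field_simp
    rw [e] at h2
    have := le_of_mul_le_mul_left h2 hnR
    linarith
  have hqL : q < L := by
    by_contra hcon
    push Not at hcon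
    have hLq : 0 < L + q := by linarith
    have h2 := hall ((L + q) / x) (div_pos hLq hx)
    have h3 : (L + q) / ((L + q) / x) = x := by
      have : L + q ≠ 0 := by linarith
      field_simp
    rw [h3] at h2
    have h4 : (L + q) / x * (L - q) ≤ 0 := mul_nonpos_of_nonneg_of_nonpos (div_pos hLq hx).le (by linarith)
    linarith
  by_contra hcon
  push Not at hcon
  have h5 : 20 + Real.sqrt (L ^ 2 - x ^ 2) < Real.log n := by
    rw [Real.lt_log_iff_exp_lt hnR]
    exact hcon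
  have hsq := Real.sqrt_nonneg (L ^ 2 - x ^ 2)
  have hq0 : Real.sqrt (L ^ 2 - x ^ 2) < q := by linarith
  have hq0' : 0 < q := by linarith
  have h6 : L ^ 2 - x ^ 2 < q ^ 2 := by
    have := Real.sqrt_lt' hq0' |>.1 hq0
    exact this
  have hp1 : 0 < L + q := by linarith
  have hp2 : 0 < L - q := by linarith
  have h7 := hall (Real.sqrt ((L + q) / (L - q))) (by positivity)
  have h8 : Real.sqrt ((L + q) / (L - q)) * (L - q) = Real.sqrt (L + q) * Real.sqrt (L - q) := by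
    rw [Real.sqrt_div hp1.le]
    have := Real.mul_self_sqrt hp2.le
    have h9 : Real.sqrt (L - q) ≠ 0 := by positivity
    calc Real.sqrt (L + q) / Real.sqrt (L - q) * (L - q) = Real.sqrt (L + q) / Real.sqrt (L - q) * (Real.sqrt (L - q) * Real.sqrt (L - q)) := by rw [this]
      _ = _ := by field_simp
  have h9 : (L + q) / Real.sqrt ((L + q) / (L - q)) = Real.sqrt (L + q) * Real.sqrt (L - q) := by
    rw [Real.sqrt_div hp1.le]
    have := Real.mul_self_sqrt hp1.le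
    have h9 : Real.sqrt (L + q) ≠ 0 := by positivity
    have h10 : Real.sqrt (L - q) ≠ 0 := by positivity
    calc (L + q) / (Real.sqrt (L + q) / Real.sqrt (L - q)) = (Real.sqrt (L + q) * Real.sqrt (L + q)) / (Real.sqrt (L + q) / Real.sqrt (L - q)) := by rw [this]
      _ = _ := by field_simp
  rw [h8, h9] at h7
  have h10 : x ≤ Real.sqrt (L + q) * Real.sqrt (L - q) := by linarith
  have h11 : x ^ 2 ≤ (L + q) * (L - q) := by
    calc x ^ 2 ≤ (Real.sqrt (L + q) * Real.sqrt (L - q)) ^ 2 := by gcongr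
      _ = _ := by rw [mul_pow, Real.sq_sqrt hp1.le, Real.sq_sqrt hp2.le]
  nlinarith

theorem tailG : ∃ C₀ : ℝ, 0 ≤ C₀ ∧ ∀ H : ℂ → ℂ, ContinuousOn H (ball 0 1) → CharIneq H → ∀ s : ℝ, 0 < s → s < 1 → ∀ φ x : ℝ, 0 ≤ x →
  x ≤ -Real.log (1 - s ^ 2) →
    volume {θ : ℝ | θ ∈ Ioc 0 (2 * Real.pi) ∧ x ≤ (Complex.exp (-(φ * Complex.I)) * H (circleMap 0 s θ)).re} ≤
      ENNReal.ofReal (C₀ * Real.exp (-(-Real.log (1 - s ^ 2) - Real.sqrt ((-Real.log (1 - s ^ 2)) ^ 2 - x ^ 2)))) := by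
  have hpi := Real.pi_pos
  have he20 : (2:ℝ) ^ 20 ≤ Real.exp 20 := by
    have h := Real.add_one_le_exp (1:ℝ)
    calc (2:ℝ) ^ 20 ≤ (Real.exp 1) ^ 20 := by
          apply pow_le_pow_left₀ (by norm_num)
          linarith
      _ = Real.exp 20 := by
          rw [← Real.exp_nat_mul]
          norm_num
  refine ⟨9 * Real.exp 20, by positivity, ?_⟩
  intro H hHc S s hs0 hs1 φ x hx0 hxL
  set L : ℝ := -Real.log (1 - s ^ 2) with hL
  have hpos : 0 < 1 - s ^ 2 := by nlinarith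
  have hexpL : Real.exp (-L) = 1 - s ^ 2 := by
    rw [hL, neg_neg, Real.exp_log hpos]
  have hsqn := Real.sqrt_nonneg (L ^ 2 - x ^ 2)
  have htriv : volume {θ : ℝ | θ ∈ Ioc 0 (2 * Real.pi) ∧ x ≤ (Complex.exp (-(φ * Complex.I)) * H (circleMap 0 s θ)).re} ≤ ENNReal.ofReal (2 * Real.pi) := by
    calc volume {θ : ℝ | θ ∈ Ioc 0 (2 * Real.pi) ∧ x ≤ (Complex.exp (-(φ * Complex.I)) * H (circleMap 0 s θ)).re} ≤ volume (Ioc (0:ℝ) (2 * Real.pi)) := measure_mono fun θ h => h.1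
      _ = _ := by rw [Real.volume_Ioc, sub_zero]
  have hpi4 := Real.pi_lt_four
  rcases le_or_gt s (7 / 8) with h | h
  · refine htriv.trans (ENNReal.ofReal_le_ofReal ?_)
    have h2 : Real.exp (-L) ≤ Real.exp (-(L - Real.sqrt (L ^ 2 - x ^ 2))) := Real.exp_le_exp.2 (by linarith)
    rw [hexpL] at h2
    have h3 : 15 / 64 ≤ 1 - s ^ 2 := by nlinarith
    nlinarith
  rcases eq_or_lt_of_le hx0 with hx | hx
  · refine htriv.trans (ENNReal.ofReal_le_ofReal ?_)
    have hLn : 0 ≤ L := hx0.trans hxL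
    rw [← hx]
    have : Real.sqrt (L ^ 2 - 0 ^ 2) = L := by
      rw [zero_pow two_ne_zero, sub_zero, Real.sqrt_sq hLn]
    rw [this, sub_self, neg_zero, Real.exp_zero]
    nlinarith
  · have hc : Continuous fun θ : ℝ => (Complex.exp (-(φ * Complex.I)) * H (circleMap 0 s θ)).re := by
      apply Complex.continuous_re.comp
      apply continuous_const.mul
      apply hHc.comp_continuous (continuous_circleMap 0 s)
      intro θ
      rw [mem_ball_zero_iff, norm_cm' hs0]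
      exact hs1
    have hm : MeasurableSet {θ : ℝ | x ≤ (Complex.exp (-(φ * Complex.I)) * H (circleMap 0 s θ)).re} :=
      measurableSet_le measurable_const hc.measurable
    have hg := V5helper47.GC.t_GRID _ hm (1 - s) (Real.exp (20 + Real.sqrt (L ^ 2 - x ^ 2))) (by linarith) (by linarith) (Real.exp_pos _).le
      (fun n θ hE hgap hsp => countG S h hs1 hx hxL n θ hE hgap hsp)
    have e1 : {θ : ℝ | x ≤ (Complex.exp (-(φ * Complex.I)) * H (circleMap 0 s θ)).re} ∩ Ioc 0 (2 * Real.pi) =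
        {θ : ℝ | θ ∈ Ioc 0 (2 * Real.pi) ∧ x ≤ (Complex.exp (-(φ * Complex.I)) * H (circleMap 0 s θ)).re} := by
      ext θ
      simp only [mem_inter_iff, mem_ofPred_eq]
      tauto
    rw [e1] at hg
    refine hg.trans (ENNReal.ofReal_le_ofReal ?_)
    have h2 : Real.exp (-(L - Real.sqrt (L ^ 2 - x ^ 2))) = (1 - s ^ 2) * Real.exp (Real.sqrt (L ^ 2 - x ^ 2)) := by
      rw [neg_sub, sub_eq_add_neg, Real.exp_add, hexpL]
      ring
    rw [h2, Real.exp_add]
    have h3 : 1 - s ≤ 1 - s ^ 2 := by nlinarith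
    have h4 := Real.exp_pos (Real.sqrt (L ^ 2 - x ^ 2))
    have h5 := Real.exp_pos (20:ℝ)
    calc 9 * (1 - s) * (Real.exp 20 * Real.exp (Real.sqrt (L ^ 2 - x ^ 2)))
        ≤ 9 * (1 - s ^ 2) * (Real.exp 20 * Real.exp (Real.sqrt (L ^ 2 - x ^ 2))) := by gcongr
      _ = _ := by ring

end V5helper73.GC
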